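import Pool.Agent.H73.GWT.Stmts

/-! # Row PUN of project GWT: popping is decoded by the message -/

set_option autoImplicit false

open Classical

namespace GWT

namespace PUNAux

theorem full_length {ι : Type*} (b : List ι) (F : List (ι × List ι)) :
    ∀ F' : List (ι × List ι), F.map Prod.snd = F'.map Prod.snd →
      (full F b).length = (full F' b).length := by
  induction F with
  | nil =>
    intro F' h
    cases F' with
    | nil => rfl
    | cons f' F' => simp at h
  | cons f F ih =>
    intro F' h
    cases F' with
    | nil => simp at h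
    | cons f' F' =>
      rw [List.map_cons, List.map_cons, List.cons.injEq] at h
      rw [full, full, List.length_append, List.length_append, List.length_cons, List.length_cons,
        h.1, ih F' h.2]

variable {ι G V : Type*} [Fintype ι] [Group G] [MulAction G V] (C : Code ι G V)

theorem W_split (w : ℕ → G) (acc : List ι) (f : ι × List ι) (F : List (ι × List ι))
    (b : List ι) :
    W C w (acc ++ full (f :: F) b) = W C w (full F b) * C.c f.1 ^ 4 *
      (w ((full F b).length + 1) * vv C w (acc ++ f.2) ((full F b).length + 1)) := by
  have h : acc ++ full (f :: F) b = (acc ++ f.2) ++ (f.1 :: full F b) := by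
    rw [full, List.append_assoc]
  rw [h, W_append, W, List.length_cons, mul_assoc]

theorem off_eq (w : ℕ → G) (g v : G) (s : ι) (m : List ι)
    (h : g = W C w m * C.c s ^ 4 * v) :
    off C w g s m =
      C.d (g • C.o) (W C w m • C.c s • C.o) + 3 * C.Λ - C.d C.o (v • C.o) := by
  have h2 : (C.c s ^ 4)⁻¹ • (W C w m)⁻¹ • g • C.o = v • C.o := by
    rw [h, ← mul_smul, ← mul_smul]
    congr 1
    group
  unfold off
  rw [h2]

end PUNAux

variable {ι G V : Type*} [Fintype ι] [Group G] [MulAction G V] (C : Code ι G V)

theorem PUN (h1 : FDCStmt C) : PUNStmt C := by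
  intro w x y F
  induction F with
  | nil =>
    intro F' acc₀ b l l' R R' hl hl' hm hO hO' he
    cases F' with
    | nil => rfl
    | cons f' F' => simp at hm
  | cons f F ih =>
    intro F' acc₀ b l l' R R' hl hl' hm hO hO' he
    cases F' with
    | nil => simp at hm
    | cons f' F' =>
      rw [List.map_cons, List.map_cons, List.cons.injEq] at hm
      obtain ⟨hm1, hm2⟩ := hm
      have hlen := PUNAux.full_length b F F' hm2
      obtain ⟨-, o2, o3, o4, o5⟩ := hO
      obtain ⟨-, p2, p3, p4, p5⟩ := hO'
      have hg : W C w l = W C w (full F b) * C.c f.1 ^ 4 *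
          (w ((full F b).length + 1) * vv C w (acc₀ ++ f.2) ((full F b).length + 1)) := by
        rw [hl, PUNAux.W_split]
      have hg' : W C w l' = W C w (full F' b) * C.c f'.1 ^ 4 *
          (w ((full F b).length + 1) * vv C w (acc₀ ++ f.2) ((full F b).length + 1)) := by
        rw [hl', PUNAux.W_split, ← hm1, ← hlen]
      rw [pop, pop] at he ⊢
      by_cases c1 : C.d C.o (cen C.tree C.o (W C w l • C.o) ((W C w l * y) • C.o)) <
          pos C w f.1 (full F b) + 2 * C.Λ
      · by_cases c2 : C.d C.o (cen C.tree C.o (W C w l' • C.o) ((W C w l' * y) • C.o)) <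
            pos C w f'.1 (full F' b) + 2 * C.Λ
        · rw [if_pos c1, if_pos c2] at he
          rw [if_pos c1, if_pos c2]
          rw [List.cons.injEq] at he
          obtain ⟨he1, he2⟩ := he
          have hs : f.1 = f'.1 := by
            by_cases d1 : C.d C.o (cen C.tree C.o (W C w l • C.o) ((W C w l * y) • C.o)) ≤
                pos C w f.1 (full F b)
            · by_cases d2 : C.d C.o (cen C.tree C.o (W C w l' • C.o) ((W C w l' * y) • C.o)) ≤
                  pos C w f'.1 (full F' b)
              · rw [if_pos d1, if_pos d2, Sum.inl.injEq, PUNAux.off_eq C w _ _ _ _ hg,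
                  PUNAux.off_eq C w _ _ _ _ hg'] at he1
                exact h1 _ _ _ y _ _ _ _ hg hg' o2 o3 o4 d1 p2 p3 p4 d2 he1
              · rw [if_pos d1, if_neg d2] at he1
                exact absurd he1 (by simp)
            · by_cases d2 : C.d C.o (cen C.tree C.o (W C w l' • C.o) ((W C w l' * y) • C.o)) ≤
                  pos C w f'.1 (full F' b)
              · rw [if_neg d1, if_pos d2] at he1
                exact absurd he1 (by simp)
              · rw [if_neg d1, if_neg d2, Sum.inr.injEq] at he1
                exact he1
          have e1 : x :: acc₀ ++ f.2 ++ [f.1] = x :: (acc₀ ++ f.2 ++ [f.1]) := rfl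
          have e2 : x :: acc₀ ++ f'.2 ++ [f'.1] = x :: (acc₀ ++ f.2 ++ [f.1]) := by
            rw [← hm1, ← hs]; rfl
          rw [e1, e2] at he2
          rw [e1, e2]
          refine ih F' (acc₀ ++ f.2 ++ [f.1]) b l l' _ _ ?_ ?_ hm2 o5 p5 he2
          · rw [hl, full_append_acc]
          · rw [hl', ← full_append_acc, ← hm1, ← hs]
        · rw [if_pos c1, if_neg c2] at he
          exact absurd he (by simp)
      · by_cases c2 : C.d C.o (cen C.tree C.o (W C w l' • C.o) ((W C w l' * y) • C.o)) <
            pos C w f'.1 (full F' b) + 2 * C.Λ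
        · rw [if_neg c1, if_pos c2] at he
          exact absurd he (by simp)
        · rw [if_neg c1, if_neg c2]
          unfold mask
          rw [List.map_cons, List.map_cons, hm1, hm2]

end GWT
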